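import Pool.Agent.K1H98.RM.Stm

/-!
Project RM: assembly, part 1: the union bound at one scale.
-/

set_option autoImplicit false

namespace Pool.Agent.K1H98.RM

open Finset MeasureTheory ProbabilityTheory

/-- independent random signs -/
structure Signs {Ω : Type} [MeasurableSpace Ω] (P : Measure Ω) (s : ℕ → Ω → ℝ) : Prop where
  meas : ∀ n, Measurable (s n)
  ind : iIndepFun s P
  pm : ∀ n ω, s n ω = 1 ∨ s n ω = -1
  mean : ∀ n, ∫ ω, s n ω ∂P = 0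

lemma ff_sq {s : ℕ → ℝ} (hs : ∀ n, s n = 1 ∨ s n = -1) (n : ℕ) :
    ff s n ^ 2 = if Squarefree n then 1 else 0 := by
  unfold ff
  split_ifs with h
  · rw [← Finset.prod_pow]
    refine Finset.prod_eq_one fun p _ => ?_
    rcases hs p with h | h <;> rw [h] <;> norm_num
  · norm_num

lemma ff_abs {s : ℕ → ℝ} (hs : ∀ n, s n = 1 ∨ s n = -1) (n : ℕ) : |ff s n| ≤ 1 := by
  have h := ff_sq hs n
  have h1 : ff s n ^ 2 ≤ 1 := by
    rw [h]; split_ifs <;> norm_num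
  exact abs_le_one_iff_mul_self_le_one.2 (by rw [← sq]; exact h1)

lemma ZZ_bound {s : ℕ → ℝ} (hs : ∀ n, s n = 1 ∨ s n = -1) (U1 U2 j : ℕ) :
    ‖ZZ (ff s) U1 U2 j ^ 2‖ ≤ (((U2 - U1 : ℕ) : ℝ) * j) ^ 2 := by
  rw [norm_pow, Real.norm_eq_abs]
  refine pow_le_pow_left₀ (abs_nonneg _) ?_ 2
  unfold ZZ
  calc |∑ u ∈ Ico U1 U2, ff s (u + j + 1) * DD (ff s) u j|
      ≤ ∑ u ∈ Ico U1 U2, |ff s (u + j + 1) * DD (ff s) u j| := Finset.abs_sum_le_sum_abs _ _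
    _ ≤ ∑ u ∈ Ico U1 U2, (j : ℝ) := by
        refine Finset.sum_le_sum fun u _ => ?_
        rw [abs_mul]
        have h1 := ff_abs hs (u + j + 1)
        have h2 : |DD (ff s) u j| ≤ j := by
          unfold DD
          calc |∑ n ∈ Ioc u (u + j), ff s n| ≤ ∑ n ∈ Ioc u (u + j), |ff s n| := Finset.abs_sum_le_sum_abs _ _
            _ ≤ ∑ n ∈ Ioc u (u + j), (1 : ℝ) := Finset.sum_le_sum fun n _ => ff_abs hs n
            _ = j := by simp
        calc |ff s (u + j + 1)| * |DD (ff s) u j| ≤ 1 * j :=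
              mul_le_mul h1 h2 (abs_nonneg _) zero_le_one
          _ = j := one_mul _
    _ = _ := by rw [Finset.sum_const, Nat.card_Ico, nsmul_eq_mul]

section
variable {Ω : Type} [MeasurableSpace Ω] {P : Measure Ω} [IsProbabilityMeasure P] {s : ℕ → Ω → ℝ}

lemma meas_ff (hs : Signs P s) (n : ℕ) : Measurable fun ω => ff (fun k => s k ω) n := by
  unfold ff
  by_cases h : Squarefree n
  · simp only [if_pos h]
    exact Finset.measurable_prod _ fun p _ => hs.meas p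
  · simp only [if_neg h]
    exact measurable_const

lemma meas_ZZ (hs : Signs P s) (U1 U2 j : ℕ) : Measurable fun ω => ZZ (ff fun k => s k ω) U1 U2 j := by
  unfold ZZ DD
  exact Finset.measurable_sum _ fun u _ => (meas_ff hs _).mul
    (Finset.measurable_sum _ fun n _ => meas_ff hs n)

lemma int_ZZ (hs : Signs P s) (U1 U2 j : ℕ) :
    Integrable (fun ω => ZZ (ff fun k => s k ω) U1 U2 j ^ 2) P :=
  Integrable.of_bound ((meas_ZZ hs U1 U2 j).pow_const 2).aestronglyMeasurable _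
    (Filter.Eventually.of_forall fun ω => ZZ_bound (fun n => hs.pm n ω) U1 U2 j)

lemma int_QQ (hs : Signs P s) (U1 U2 J : ℕ) :
    Integrable (fun ω => QQ (ff fun k => s k ω) U1 U2 J) P := by
  unfold QQ
  exact integrable_finsetSum _ fun j _ => (int_ZZ hs U1 U2 j).div_const _

lemma QQ_nonneg (a : ℕ → ℝ) (U1 U2 J : ℕ) : 0 ≤ QQ a U1 U2 J :=
  Finset.sum_nonneg fun _ _ => by positivity

lemma moment (hMOM : S_MOM) {η C : ℝ} (hη : 0 < η) (hC : 0 ≤ C)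
    (hCNT : ∀ A B j : ℕ, 1 ≤ j → j ≤ B → ((sol A B j).card : ℝ) ≤ C * (B : ℝ) ^ (1 + η) * j)
    (hs : Signs P s) {U1 U2 J N : ℕ} (hUN : U2 ≤ 6 * N) (hJN : J ≤ 2 * N) :
    ∫ ω, QQ (ff fun k => s k ω) U1 U2 J ∂P ≤ J * (C * (8 * N : ℝ) ^ (1 + η)) := by
  unfold QQ
  rw [integral_finsetSum _ fun j _ => (int_ZZ hs U1 U2 j).div_const _]
  calc ∑ j ∈ Icc 1 J, ∫ ω, ZZ (ff fun k => s k ω) U1 U2 j ^ 2 / j ∂P
      ≤ ∑ j ∈ Icc 1 J, C * (8 * N : ℝ) ^ (1 + η) := by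
        refine Finset.sum_le_sum fun j hj => ?_
        rw [Finset.mem_Icc] at hj
        have hj1 : (1 : ℝ) ≤ j := by exact_mod_cast hj.1
        rw [integral_div, div_le_iff₀ (by linarith)]
        refine (hMOM Ω P s hs.meas hs.ind hs.pm hs.mean U1 U2 j).trans ?_
        refine (hCNT (U1 + j) (U2 + j) j hj.1 (by omega)).trans ?_
        gcongr
        have : U2 + j ≤ 8 * N := by omega
        exact_mod_cast this
    _ = _ := by
        rw [Finset.sum_const, Nat.card_Icc, nsmul_eq_mul]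
        push_cast
        simp

lemma markov (hMOM : S_MOM) {η C : ℝ} (hη : 0 < η) (hC : 0 ≤ C)
    (hCNT : ∀ A B j : ℕ, 1 ≤ j → j ≤ B → ((sol A B j).card : ℝ) ≤ C * (B : ℝ) ^ (1 + η) * j)
    (hs : Signs P s) {U1 U2 J N : ℕ} {L : ℝ} (hL : 0 < L) (hUN : U2 ≤ 6 * N) (hJN : J ≤ 2 * N) :
    P.real {ω | L ^ 2 < QQ (ff fun k => s k ω) U1 U2 J} ≤ J * (C * (8 * N : ℝ) ^ (1 + η)) / L ^ 2 := by
  rw [le_div_iff₀ (by positivity), mul_comm]
  refine le_trans ?_ (moment hMOM hη hC hCNT hs (U1 := U1) hUN hJN)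
  refine le_trans ?_ (mul_meas_ge_le_integral_of_nonneg
    (Filter.Eventually.of_forall fun ω => QQ_nonneg _ U1 U2 J) (int_QQ hs U1 U2 J) (L ^ 2))
  refine mul_le_mul_of_nonneg_left ?_ (by positivity)
  exact measureReal_mono (fun ω (hω : L ^ 2 < _) => hω.le) (measure_ne_top P _)

/-- the exceptional set at one scale -/
def Bad (s : ℕ → Ω → ℝ) (N g J : ℕ) (L : ℝ) : Set Ω :=
  {ω | ∃ c b : ℕ, c ≤ b ∧ b * g ≤ 6 * N ∧ L ^ 2 < QQ (ff fun k => s k ω) (c * g) (b * g) J}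

lemma bad_card (hMOM : S_MOM) {η C : ℝ} (hη : 0 < η) (hC : 0 ≤ C)
    (hCNT : ∀ A B j : ℕ, 1 ≤ j → j ≤ B → ((sol A B j).card : ℝ) ≤ C * (B : ℝ) ^ (1 + η) * j)
    (hs : Signs P s) {N g J : ℕ} {L : ℝ} (hL : 0 < L) (hg : 1 ≤ g) (hJN : J ≤ 2 * N) :
    P.real (Bad s N g J L) ≤ (6 * N / g + 1) ^ 2 * (J * (C * (8 * N : ℝ) ^ (1 + η)) / L ^ 2) := by
  set K := 6 * N / g with hK
  set M := J * (C * (8 * N : ℝ) ^ (1 + η)) / L ^ 2 with hM
  have hM0 : 0 ≤ M := by positivity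
  have hsub : Bad s N g J L ⊆ ⋃ p ∈ range (K + 1) ×ˢ range (K + 1),
      {ω | (p.1 ≤ p.2 ∧ p.2 * g ≤ 6 * N) ∧ L ^ 2 < QQ (ff fun k => s k ω) (p.1 * g) (p.2 * g) J} := by
    rintro ω ⟨c, b, hcb, hb, h⟩
    have hbK : b ≤ K := (Nat.le_div_iff_mul_le hg).2 hb
    simp only [Set.mem_iUnion]
    refine ⟨(c, b), ?_, ⟨hcb, hb⟩, h⟩
    rw [Finset.mem_product, Finset.mem_range, Finset.mem_range]
    constructor <;> dsimp only <;> omega
  calc P.real (Bad s N g J L) ≤ P.real (⋃ p ∈ range (K + 1) ×ˢ range (K + 1),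
      {ω | (p.1 ≤ p.2 ∧ p.2 * g ≤ 6 * N) ∧ L ^ 2 < QQ (ff fun k => s k ω) (p.1 * g) (p.2 * g) J}) :=
        measureReal_mono hsub (measure_ne_top P _)
    _ ≤ ∑ p ∈ range (K + 1) ×ˢ range (K + 1), P.real
      {ω | (p.1 ≤ p.2 ∧ p.2 * g ≤ 6 * N) ∧ L ^ 2 < QQ (ff fun k => s k ω) (p.1 * g) (p.2 * g) J} :=
        measureReal_biUnion_finset_le _ _
    _ ≤ ∑ p ∈ range (K + 1) ×ˢ range (K + 1), M := by
        refine Finset.sum_le_sum fun p _ => ?_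
        by_cases h : p.1 ≤ p.2 ∧ p.2 * g ≤ 6 * N
        · refine le_trans (measureReal_mono ?_ (measure_ne_top P _)) (markov hMOM hη hC hCNT hs hL h.2 hJN (U1 := p.1 * g))
          exact fun ω hω => hω.2
        · have : {ω | (p.1 ≤ p.2 ∧ p.2 * g ≤ 6 * N) ∧
              L ^ 2 < QQ (ff fun k => s k ω) (p.1 * g) (p.2 * g) J} = ∅ := by
            ext ω
            simp only [Set.mem_ofPred_eq, Set.mem_empty_iff_false, iff_false, not_and]
            exact fun h' => absurd h' h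
          rw [this]
          simpa using hM0
    _ = ((K : ℝ) + 1) ^ 2 * M := by
        rw [Finset.sum_const, Finset.card_product, Finset.card_range, nsmul_eq_mul]
        push_cast
        ring
    _ ≤ _ := by
        gcongr
        rw [hK]
        have := @Nat.cast_div_le ℝ _ _ _ (6 * N) g
        push_cast at this
        exact this

/-- the choice of the parameters -/
lemma bad_bound (hCNT : S_CNT) (hMOM : S_MOM) {ε : ℝ} (hε : 0 < ε) (hε2 : ε ≤ 1 / 2) :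
    ∃ C : ℝ, 0 ≤ C ∧ ∀ {Ω : Type} [MeasurableSpace Ω] {P : Measure Ω} [IsProbabilityMeasure P]
      {s : ℕ → Ω → ℝ}, Signs P s → ∀ N J : ℕ, 1 ≤ N → (J : ℝ) ≤ (2 * (N : ℝ)) ^ (1 - ε) →
      P.real (Bad s N ⌊(N : ℝ) ^ (1 - ε / 16)⌋₊ J ((N : ℝ) ^ (1 - ε / 16))) ≤
        C * (N : ℝ) ^ (-(ε / 2)) := by
  obtain ⟨C0, hC0, hcnt⟩ := hCNT (ε / 4) (by positivity)
  refine ⟨169 * (2 * C0 * 8 ^ (1 + ε / 4)), by positivity, ?_⟩
  intro Ω _ P _ s hs N J hN hJ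
  have hx1 : (1 : ℝ) ≤ N := by exact_mod_cast hN
  obtain ⟨x, hx⟩ : ∃ x : ℝ, x = N := ⟨_, rfl⟩
  rw [← hx] at hJ hx1 ⊢
  have hx0 : 0 < x := by linarith
  obtain ⟨y, hy⟩ : ∃ y : ℝ, y = x ^ (ε / 16) := ⟨_, rfl⟩
  have hy1 : 1 ≤ y := by rw [hy]; exact Real.one_le_rpow hx1 (by positivity)
  have hy0 : 0 < y := by linarith
  have e1 : x ^ (1 - ε / 16) = x / y := by rw [Real.rpow_sub hx0, Real.rpow_one, hy]
  have e16 : x ^ ε = y ^ 16 := by
    rw [hy, ← Real.rpow_natCast, ← Real.rpow_mul hx0.le]; congr 1; push_cast; ring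
  have e2 : x ^ (1 - ε) = x / y ^ 16 := by rw [Real.rpow_sub hx0, Real.rpow_one, e16]
  have e3 : x ^ (ε / 4) = y ^ 4 := by
    rw [hy, ← Real.rpow_natCast, ← Real.rpow_mul hx0.le]; congr 1; push_cast; ring
  have e4 : x ^ (-(ε / 2)) = (y ^ 8)⁻¹ := by
    rw [Real.rpow_neg hx0.le, hy, ← Real.rpow_natCast, ← Real.rpow_mul hx0.le]; congr 2; push_cast; ring
  have hL1 : 1 ≤ x ^ (1 - ε / 16) := Real.one_le_rpow hx1 (by linarith)
  set L := x ^ (1 - ε / 16) with hLd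
  have hg1 : 1 ≤ ⌊L⌋₊ := Nat.one_le_floor_iff L |>.2 hL1
  have hg1' : (1 : ℝ) ≤ ⌊L⌋₊ := by exact_mod_cast hg1
  have hg2 : L ≤ 2 * (⌊L⌋₊ : ℝ) := by
    have := Nat.lt_floor_add_one L
    linarith
  have hJ2 : (J : ℝ) ≤ 2 * x := by
    refine hJ.trans ?_
    calc (2 * x) ^ (1 - ε) ≤ (2 * x) ^ (1 : ℝ) :=
          Real.rpow_le_rpow_of_exponent_le (by linarith) (by linarith)
      _ = 2 * x := Real.rpow_one _
  have hJN : J ≤ 2 * N := by rw [hx] at hJ2; exact_mod_cast hJ2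
  have hJ3 : (J : ℝ) ≤ 2 * (x / y ^ 16) := by
    refine hJ.trans ?_
    rw [Real.mul_rpow (by norm_num) hx0.le, e2]
    have : (2 : ℝ) ^ (1 - ε) ≤ 2 := by
      calc (2 : ℝ) ^ (1 - ε) ≤ 2 ^ (1 : ℝ) := Real.rpow_le_rpow_of_exponent_le (by norm_num) (by linarith)
        _ = 2 := Real.rpow_one _
    gcongr
  have hb := bad_card hMOM (η := ε / 4) (by positivity) hC0 hcnt hs (L := L) (by linarith : 0 < L) hg1 hJN
  refine hb.trans ?_
  rw [← hx]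
  have hK : 6 * x / (⌊L⌋₊ : ℝ) + 1 ≤ 13 * y := by
    have h1 : 6 * x / (⌊L⌋₊ : ℝ) ≤ 12 * y := by
      rw [div_le_iff₀ (by linarith)]
      have h2 : x = L * y := by rw [e1]; field_simp
      calc 6 * x = 6 * y * L := by rw [h2]; ring
        _ ≤ 6 * y * (2 * (⌊L⌋₊ : ℝ)) := by gcongr
        _ = _ := by ring
    linarith
  have e5 : (8 * x) ^ (1 + ε / 4) = 8 ^ (1 + ε / 4) * (x * y ^ 4) := by
    rw [Real.mul_rpow (by norm_num) hx0.le, Real.rpow_add hx0, Real.rpow_one, e3]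
  rw [e5]
  calc (6 * x / (⌊L⌋₊ : ℝ) + 1) ^ 2 * (J * (C0 * (8 ^ (1 + ε / 4) * (x * y ^ 4))) / L ^ 2)
      ≤ (13 * y) ^ 2 * (2 * (x / y ^ 16) * (C0 * (8 ^ (1 + ε / 4) * (x * y ^ 4))) / L ^ 2) := by
        gcongr
    _ = 169 * (2 * C0 * 8 ^ (1 + ε / 4)) * (y ^ 8)⁻¹ * ((y ^ 8 * y ^ 4 * y ^ 4) / y ^ 16) := by
        rw [e1]; field_simp; ring
    _ = 169 * (2 * C0 * 8 ^ (1 + ε / 4)) * (y ^ 8)⁻¹ := by
        have : y ^ 8 * y ^ 4 * y ^ 4 / y ^ 16 = 1 := by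
          rw [← pow_add, ← pow_add]
          exact div_self (pow_pos hy0 16).ne'
        rw [this, mul_one]
    _ = _ := by rw [e4]

end

end Pool.Agent.K1H98.RM
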