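import Pool.Agent.K1H98.RM.Fin
import Pool.Agent.K1H54.GC.Stm

/-!
Project RM: assembly, part 2: the Borel-Cantelli lemma and the main theorems.
-/

set_option autoImplicit false

namespace Pool.Agent.K1H98.RM

open Finset MeasureTheory ProbabilityTheory Filter

theorem main0 (hCNT : S_CNT) (hMOM : S_MOM) (hGOOD : S_GOOD) (hSQF : Pool.Agent.K1H54.GC.S_SQF)
    {ε : ℝ} (hε : 0 < ε) (hε2 : ε ≤ 1 / 2)
    {Ω : Type} [MeasurableSpace Ω] {P : Measure Ω} [IsProbabilityMeasure P] {s : ℕ → Ω → ℝ}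
    (hs : Signs P s) :
    ∀ᵐ ω ∂P, ∃ X0 : ℝ, 1 ≤ X0 ∧ ∀ X H : ℝ, X0 ≤ X → 1 ≤ H → H ≤ X ^ (1 - ε) →
      |VV (ff fun n => s n ω) X H - 6 / Real.pi ^ 2 * H| ≤ H * X ^ (-(ε / 32)) := by
  obtain ⟨C0, hC0⟩ := hSQF
  obtain ⟨C1, hC1⟩ : ∃ C1, C1 = max C0 0 := ⟨_, rfl⟩
  have hC1n : 0 ≤ C1 := by rw [hC1]; exact le_max_right _ _
  have hS : ∀ A B : ℕ, A ≤ B →
      |(((Ioc A B).filter (fun n => Squarefree n)).card : ℝ) - 6 / Real.pi ^ 2 * ((B : ℝ) - A)| ≤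
        C1 * √(B : ℝ) := by
    intro A B hAB
    refine (hC0 A B hAB).trans ?_
    rw [hC1]
    gcongr
    exact le_max_left _ _
  obtain ⟨Cb, hCb0, hCb⟩ := bad_bound hCNT hMOM hε hε2
  obtain ⟨r, hr⟩ : ∃ r : ℝ, r = 2 ^ (-(ε / 2)) := ⟨_, rfl⟩
  have hr0 : 0 ≤ r := by rw [hr]; positivity
  have hr1 : r < 1 := by
    rw [hr]; exact Real.rpow_lt_one_of_one_lt_of_neg (by norm_num) (by linarith)
  set Jk : ℕ → ℕ := fun k => ⌊(2 * ((2 ^ k : ℕ) : ℝ)) ^ (1 - ε)⌋₊ with hJk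
  set BB : ℕ → Set Ω := fun k =>
    Bad s (2 ^ k) ⌊((2 ^ k : ℕ) : ℝ) ^ (1 - ε / 16)⌋₊ (Jk k) (((2 ^ k : ℕ) : ℝ) ^ (1 - ε / 16)) with hBB
  have hBk : ∀ k, P.real (BB k) ≤ Cb * r ^ k := by
    intro k
    refine (hCb hs (2 ^ k) (Jk k) Nat.one_le_two_pow (Nat.floor_le (by positivity))).trans ?_
    refine mul_le_mul_of_nonneg_left (le_of_eq ?_) hCb0
    push_cast
    rw [hr, ← Real.rpow_natCast, ← Real.rpow_mul (by norm_num), ← Real.rpow_natCast,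
      ← Real.rpow_mul (by norm_num)]
    congr 1; ring
  have hfin : (∑' k, P (BB k)) ≠ ⊤ := by
    have h1 : ∑' k, P (BB k) ≤ ∑' k, ENNReal.ofReal (Cb * r ^ k) := by
      refine ENNReal.tsum_le_tsum fun k => ?_
      rw [← ofReal_measureReal (measure_ne_top P _)]
      exact ENNReal.ofReal_le_ofReal (hBk k)
    exact ne_top_of_le_ne_top
      (((summable_geometric_of_lt_one hr0 hr1).mul_left Cb).tsum_ofReal_ne_top) h1
  filter_upwards [ae_eventually_notMem hfin] with ω hω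
  obtain ⟨K, hK⟩ := eventually_atTop.1 hω
  obtain ⟨X1, hX1⟩ := eventually_atTop.1
    ((tendsto_rpow_atTop (show (0 : ℝ) < ε / 32 by positivity)).eventually_ge_atTop (6 + 6 * C1))
  refine ⟨max (2 ^ (K + 1)) X1, le_max_of_le_left (one_le_pow₀ (by norm_num)), ?_⟩
  intro X H hX hH hHX
  have hXK : (2 : ℝ) ^ (K + 1) ≤ X := (le_max_left _ _).trans hX
  have hXX := hX1 X ((le_max_right _ _).trans hX)
  have hX1' : 1 ≤ X := (one_le_pow₀ (by norm_num)).trans hXK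
  have hX0 : 0 < X := by linarith
  obtain ⟨k, hk⟩ : ∃ k, k = Nat.log 2 ⌊X⌋₊ := ⟨_, rfl⟩
  have hfl1 : 1 ≤ ⌊X⌋₊ := Nat.one_le_floor_iff X |>.2 hX1'
  have hk1 : ((2 ^ k : ℕ) : ℝ) ≤ X := by
    have h1 : 2 ^ k ≤ ⌊X⌋₊ := by rw [hk]; exact Nat.pow_log_le_self 2 (by omega)
    have h2 : ((2 ^ k : ℕ) : ℝ) ≤ (⌊X⌋₊ : ℝ) := by exact_mod_cast h1
    exact h2.trans (Nat.floor_le hX0.le)
  have hk2' : X < 2 * ((2 ^ k : ℕ) : ℝ) := by
    have h1 : ⌊X⌋₊ < 2 ^ (k + 1) := by rw [hk]; exact Nat.lt_pow_succ_log_self (by norm_num) _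
    have h2 : X < (⌊X⌋₊ : ℝ) + 1 := Nat.lt_floor_add_one X
    have h3 : ((⌊X⌋₊ + 1 : ℕ) : ℝ) ≤ ((2 ^ (k + 1) : ℕ) : ℝ) := by exact_mod_cast h1
    push_cast at h3
    push_cast
    rw [pow_succ] at h3
    linarith
  have hk2 : X ≤ 2 * ((2 ^ k : ℕ) : ℝ) := hk2'.le
  have hKk : K ≤ k := by
    by_contra h
    have h1 : k + 1 ≤ K := by omega
    have h2 : (2 : ℝ) ^ (k + 1) ≤ 2 ^ K := pow_le_pow_right₀ (by norm_num) h1
    have h3 : (2 : ℝ) ^ K ≤ 2 ^ (K + 1) := pow_le_pow_right₀ (by norm_num) (by omega)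
    push_cast at hk2'
    rw [pow_succ] at h2
    linarith
  have hnb := hK k hKk
  obtain ⟨N, hN⟩ : ∃ N, N = 2 ^ k := ⟨_, rfl⟩
  have hnb' : ω ∉ Bad s N ⌊(N : ℝ) ^ (1 - ε / 16)⌋₊ (Jk k) ((N : ℝ) ^ (1 - ε / 16)) := by
    rw [hN]; exact hnb
  have hJk' : (2 * (N : ℝ)) ^ (1 - ε) = (2 * ((2 ^ k : ℕ) : ℝ)) ^ (1 - ε) := by rw [hN]
  have hN1 : 1 ≤ N := by rw [hN]; exact Nat.one_le_two_pow
  have hN1' : (1 : ℝ) ≤ (N : ℝ) := by exact_mod_cast hN1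
  rw [← hN] at hk1 hk2
  have hL1 : 1 ≤ (N : ℝ) ^ (1 - ε / 16) := Real.one_le_rpow hN1' (by linarith)
  have hHX' : H ≤ X := by
    refine hHX.trans ?_
    calc X ^ (1 - ε) ≤ X ^ (1 : ℝ) := Real.rpow_le_rpow_of_exponent_le hX1' (by linarith)
      _ = X := Real.rpow_one X
  have hg := hGOOD C1 hC1n hS (ff fun n => s n ω) (ff_sq fun n => hs.pm n ω) N ⌊(N : ℝ) ^ (1 - ε / 16)⌋₊
    (Jk k) ((N : ℝ) ^ (1 - ε / 16)) X H hN1 (Nat.one_le_floor_iff _ |>.2 hL1) ?_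
    (Nat.floor_le (by linarith)) ?_ hk1 hk2 hH hHX' ?_ ?_
  · -- conclusion
    have h1 : X * |VV (ff fun n => s n ω) X H - 6 / Real.pi ^ 2 * H| ≤ X * (H * X ^ (-(ε / 32))) := by
      calc X * |VV (ff fun n => s n ω) X H - 6 / Real.pi ^ 2 * H|
          = |X * VV (ff fun n => s n ω) X H - 6 / Real.pi ^ 2 * (H * X)| := by
            rw [← abs_of_pos hX0, ← abs_mul, abs_of_pos hX0]; congr 1; ring
        _ ≤ (6 + 6 * C1) * (H * (N : ℝ) ^ (1 - ε / 16)) := hg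
        _ ≤ X ^ (ε / 32) * (H * (X ^ (1 - ε / 16))) := by
            have h66 : 0 ≤ 6 + 6 * C1 := by positivity
            have h2 : (N : ℝ) ^ (1 - ε / 16) ≤ X ^ (1 - ε / 16) :=
              Real.rpow_le_rpow (by positivity) hk1 (by linarith)
            gcongr
        _ = X * (H * X ^ (-(ε / 32))) := by
            have e : X ^ (ε / 32) * X ^ (1 - ε / 16) = X * X ^ (-(ε / 32)) := by
              rw [← Real.rpow_add hX0]
              nth_rewrite 2 [← Real.rpow_one X]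
              rw [← Real.rpow_add hX0]
              congr 1; ring
            calc X ^ (ε / 32) * (H * X ^ (1 - ε / 16)) = H * (X ^ (ε / 32) * X ^ (1 - ε / 16)) := by ring
              _ = _ := by rw [e]; ring
    exact le_of_mul_le_mul_left h1 hX0
  · -- g ≤ N
    have h1 : (N : ℝ) ^ (1 - ε / 16) ≤ N := by
      calc (N : ℝ) ^ (1 - ε / 16) ≤ (N : ℝ) ^ (1 : ℝ) :=
            Real.rpow_le_rpow_of_exponent_le hN1' (by linarith)
        _ = N := Real.rpow_one _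
    have h2 := (Nat.floor_le (by linarith : (0 : ℝ) ≤ (N : ℝ) ^ (1 - ε / 16))).trans h1
    exact_mod_cast h2
  · rw [Real.sqrt_eq_rpow]
    exact Real.rpow_le_rpow_of_exponent_le hN1' (by linarith)
  · -- ⌊H⌋ ≤ J
    apply Nat.floor_le_floor
    refine hHX.trans ?_
    rw [← hJk']
    exact Real.rpow_le_rpow hX0.le hk2 (by linarith)
  · intro a b hab hb
    by_contra hlt
    exact hnb' ⟨a, b, hab, hb, not_le.1 hlt⟩

/-- the quantitative form -/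
theorem main1 (hCNT : S_CNT) (hMOM : S_MOM) (hGOOD : S_GOOD) (hSQF : Pool.Agent.K1H54.GC.S_SQF)
    {ε : ℝ} (hε : 0 < ε) :
    ∃ δ : ℝ, 0 < δ ∧ ∀ {Ω : Type} [MeasurableSpace Ω] {P : Measure Ω} [IsProbabilityMeasure P]
      {s : ℕ → Ω → ℝ}, Signs P s →
      ∀ᵐ ω ∂P, ∃ X0 : ℝ, ∀ X H : ℝ, X0 ≤ X → 1 ≤ H → H ≤ X ^ (1 - ε) →
        |VV (ff fun n => s n ω) X H - 6 / Real.pi ^ 2 * H| ≤ H * X ^ (-δ) := by
  obtain ⟨e, he⟩ : ∃ e : ℝ, e = min ε (1 / 2) := ⟨_, rfl⟩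
  have he0 : 0 < e := by rw [he]; exact lt_min hε (by norm_num)
  have he1 : e ≤ ε := by rw [he]; exact min_le_left _ _
  have he2 : e ≤ 1 / 2 := by rw [he]; exact min_le_right _ _
  refine ⟨e / 32, by positivity, ?_⟩
  intro Ω _ P _ s hs
  filter_upwards [main0 hCNT hMOM hGOOD hSQF he0 he2 hs] with ω ⟨X0, hX0, h⟩
  refine ⟨X0, fun X H hX hH hHX => h X H hX hH (hHX.trans ?_)⟩
  exact Real.rpow_le_rpow_of_exponent_le (hX0.trans hX) (by linarith)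

/-- the form of the conjecture -/
theorem main2 (hCNT : S_CNT) (hMOM : S_MOM) (hGOOD : S_GOOD) (hSQF : Pool.Agent.K1H54.GC.S_SQF)
    {Ω : Type} [MeasurableSpace Ω] {P : Measure Ω} [IsProbabilityMeasure P]
    {s : ℕ → Ω → ℝ} (hs : Signs P s) :
    ∀ᵐ ω ∂P, ∀ ε : ℝ, 0 < ε → ∀ H : ℝ → ℝ, (∀ᶠ X in atTop, X ^ ε < H X ∧ H X < X ^ (1 - ε)) →
      Tendsto (fun X => VV (ff fun n => s n ω) X (H X) / (H X / (Real.pi ^ 2 / 6))) atTop (nhds 1) := by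
  have h1 : ∀ n : ℕ, ∃ δ : ℝ, 0 < δ ∧ ∀ᵐ ω ∂P, ∃ X0 : ℝ, ∀ X H : ℝ, X0 ≤ X → 1 ≤ H →
      H ≤ X ^ (1 - 1 / ((n : ℝ) + 1)) →
        |VV (ff fun n => s n ω) X H - 6 / Real.pi ^ 2 * H| ≤ H * X ^ (-δ) := by
    intro n
    obtain ⟨δ, hδ, h⟩ := main1 hCNT hMOM hGOOD hSQF (ε := 1 / ((n : ℝ) + 1)) (by positivity)
    exact ⟨δ, hδ, h hs⟩
  choose δ hδ h2 using h1
  filter_upwards [ae_all_iff.2 h2] with ω hω ε hε H hH
  obtain ⟨n, hn⟩ := exists_nat_one_div_lt hε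
  obtain ⟨X0, hX0⟩ := hω n
  have hpi : 0 < Real.pi ^ 2 / 6 := by positivity
  rw [tendsto_iff_norm_sub_tendsto_zero]
  have hlim : Tendsto (fun X : ℝ => Real.pi ^ 2 / 6 * X ^ (-(δ n))) atTop (nhds 0) := by
    have := (tendsto_rpow_neg_atTop (hδ n)).const_mul (Real.pi ^ 2 / 6)
    simpa using this
  refine squeeze_zero' (Eventually.of_forall fun _ => norm_nonneg _) ?_ hlim
  filter_upwards [hH, eventually_ge_atTop X0, eventually_ge_atTop 1] with X h3 h4 h5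
  have h6 : 1 ≤ H X := (Real.one_le_rpow h5 hε.le).trans h3.1.le
  have h7 : H X ≤ X ^ (1 - 1 / ((n : ℝ) + 1)) :=
    h3.2.le.trans (Real.rpow_le_rpow_of_exponent_le h5 (by linarith))
  have h8 := hX0 X (H X) h4 h6 h7
  have hH0 : 0 < H X := by linarith
  rw [Real.norm_eq_abs]
  have e : VV (ff fun n => s n ω) X (H X) / (H X / (Real.pi ^ 2 / 6)) - 1 =
      (Real.pi ^ 2 / 6 / H X) * (VV (ff fun n => s n ω) X (H X) - 6 / Real.pi ^ 2 * H X) := by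
    field_simp
  rw [e, abs_mul, abs_of_pos (by positivity : 0 < Real.pi ^ 2 / 6 / H X)]
  calc Real.pi ^ 2 / 6 / H X * |VV (ff fun n => s n ω) X (H X) - 6 / Real.pi ^ 2 * H X|
      ≤ Real.pi ^ 2 / 6 / H X * (H X * X ^ (-(δ n))) := by gcongr
    _ = _ := by field_simp

end Pool.Agent.K1H98.RM
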