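import Mathlib

/-!
Project RM (MP_0575cc_nt): the variance in short intervals for random multiplicative functions (random model of `μ`).
Definitions and statements of the pieces (Mathlib only). The deterministic part is the same as in project GC
(`Pool.Agent.K1H54.GC`), with a real sequence `a` in place of `μ χ`.
-/

set_option autoImplicit false

namespace Pool.Agent.K1H98.RM

open Finset MeasureTheory ProbabilityTheory

/-- the sum over the integers in `(u, u + j]` -/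
noncomputable def DD (a : ℕ → ℝ) (u j : ℕ) : ℝ := ∑ n ∈ Ioc u (u + j), a n

/-- the sum of the squares of the sums over the windows `(u, u + j]`, `U1 ≤ u < U2` -/
noncomputable def II (a : ℕ → ℝ) (U1 U2 j : ℕ) : ℝ := ∑ u ∈ Ico U1 U2, DD a u j ^ 2

/-- the correlations -/
noncomputable def ZZ (a : ℕ → ℝ) (U1 U2 j : ℕ) : ℝ := ∑ u ∈ Ico U1 U2, a (u + j + 1) * DD a u j

/-- the weighted sum of the squares of the correlations -/
noncomputable def QQ (a : ℕ → ℝ) (U1 U2 J : ℕ) : ℝ := ∑ j ∈ Icc 1 J, ZZ a U1 U2 j ^ 2 / j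

/-- the sum over the integers `n` with `|n - x| < H / 2` -/
noncomputable def MM (a : ℕ → ℝ) (x H : ℝ) : ℝ :=
  ∑ n ∈ (range (⌈x + H⌉₊ + 1)).filter (fun n : ℕ => |(n : ℝ) - x| < H / 2), a n

/-- the variance -/
noncomputable def VV (a : ℕ → ℝ) (X H : ℝ) : ℝ := (1 / X) * ∫ x in X..2 * X, MM a x H ^ 2

/-- the multiplicative function supported on the squarefree numbers with the values `s p` at the primes -/
noncomputable def ff (s : ℕ → ℝ) (n : ℕ) : ℝ :=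
  if Squarefree n then ∏ p ∈ n.primeFactors, s p else 0

/-- Piece SAND (with INT): comparison of the integral with the sums over windows. -/
def S_SAND : Prop := ∀ (a : ℕ → ℝ) (X H : ℝ) (U1 U2 : ℕ), 1 ≤ H → 0 < X → U1 ≤ U2 →
  ((U1 : ℝ) + H / 2 ≤ X → 2 * X ≤ (U2 : ℝ) + H / 2 →
    ∫ x in X..2 * X, MM a x H ^ 2 ≤
      (1 - Int.fract H) * II a U1 U2 ⌊H⌋₊ + Int.fract H * II a U1 U2 (⌊H⌋₊ + 1)) ∧
  (X ≤ (U1 : ℝ) + H / 2 → (U2 : ℝ) + H / 2 ≤ 2 * X →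
    (1 - Int.fract H) * II a U1 U2 ⌊H⌋₊ + Int.fract H * II a U1 U2 (⌊H⌋₊ + 1) ≤
      ∫ x in X..2 * X, MM a x H ^ 2)

/-- Piece GOOD: the variance from the correlations on a grid. -/
def S_GOOD : Prop := ∀ C1 : ℝ, 0 ≤ C1 →
  (∀ A B : ℕ, A ≤ B → |(((Ioc A B).filter (fun n => Squarefree n)).card : ℝ) -
    6 / Real.pi ^ 2 * ((B : ℝ) - A)| ≤ C1 * √(B : ℝ)) →
  ∀ a : ℕ → ℝ, (∀ n, a n ^ 2 = if Squarefree n then 1 else 0) →
  ∀ (N g J : ℕ) (L X H : ℝ), 1 ≤ N → 1 ≤ g → g ≤ N → (g : ℝ) ≤ L → √(N : ℝ) ≤ L → (N : ℝ) ≤ X → X ≤ 2 * N →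
    1 ≤ H → H ≤ X → ⌊H⌋₊ ≤ J → (∀ c b : ℕ, c ≤ b → b * g ≤ 6 * N → QQ a (c * g) (b * g) J ≤ L ^ 2) →
    |X * VV a X H - 6 / Real.pi ^ 2 * (H * X)| ≤ (6 + 6 * C1) * (H * L)

/-- elements `((m, h), (m', h'))` with `A < m, m' ≤ B`, `1 ≤ h, h' ≤ j`, all of `m`, `m - h`, `m'`, `m' - h'`
squarefree, and the product of these four numbers a square -/
def sol (A B j : ℕ) : Finset ((ℕ × ℕ) × (ℕ × ℕ)) :=
  ((Ioc A B ×ˢ Icc 1 j) ×ˢ (Ioc A B ×ˢ Icc 1 j)).filter (fun p =>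
    (Squarefree p.1.1 ∧ Squarefree (p.1.1 - p.1.2) ∧ Squarefree p.2.1 ∧ Squarefree (p.2.1 - p.2.2)) ∧
      IsSquare (p.1.1 * (p.1.1 - p.1.2) * (p.2.1 * (p.2.1 - p.2.2))))

/-- Piece CNT: the number of solutions. -/
def S_CNT : Prop := ∀ η : ℝ, 0 < η → ∃ C : ℝ, 0 ≤ C ∧ ∀ A B j : ℕ, 1 ≤ j → j ≤ B →
  ((sol A B j).card : ℝ) ≤ C * (B : ℝ) ^ (1 + η) * j

/-- Piece MOM: the second moment of the correlations. -/
def S_MOM : Prop := ∀ (Ω : Type) [MeasurableSpace Ω] (P : Measure Ω) [IsProbabilityMeasure P] (s : ℕ → Ω → ℝ),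
  (∀ n, Measurable (s n)) → iIndepFun s P → (∀ n ω, s n ω = 1 ∨ s n ω = -1) → (∀ n, ∫ ω, s n ω ∂P = 0) →
  ∀ U1 U2 j : ℕ, ∫ ω, ZZ (ff fun n => s n ω) U1 U2 j ^ 2 ∂P ≤ ((sol (U1 + j) (U2 + j) j).card : ℝ)

end Pool.Agent.K1H98.RM
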